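import Pool.Agent.H25.MF.Targets

/-! Row AT of board mf_modules (MP_118735_nt). -/

set_option autoImplicit false

open Complex MeasureTheory Filter Topology

namespace Pool.Agent.H23.MF

open Pool.Agent.H25.MF

theorem at_subst (P K : ℝ → ℝ) (v₀ T : ℝ) (hT : 0 < T) :
    ∫ v, P v * (T * K (T * (v₀ - v))) = ∫ u, P (v₀ - u / T) * K u := by
  have h1 : ∀ v : ℝ, P v * (T * K (T * (v₀ - v))) =
      T * (fun s : ℝ => (fun u : ℝ => P (v₀ - u / T) * K u) (T * s)) (v₀ - v) := by
    intro v
    have : v₀ - T * (v₀ - v) / T = v := by field_simp; ring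
    simp only [this]
    ring
  simp_rw [h1]
  rw [integral_const_mul, integral_sub_left_eq_self
    (fun s : ℝ => (fun u : ℝ => P (v₀ - u / T) * K u) (T * s)) volume v₀,
    Measure.integral_comp_mul_left (fun u : ℝ => P (v₀ - u / T) * K u) T]
  rw [smul_eq_mul, abs_of_pos (by positivity), ← mul_assoc, mul_inv_cancel₀ hT.ne', one_mul]

theorem pf_AT : T_AT := by
  intro P hP hPb K Kh hK v₀
  obtain ⟨C, hC⟩ := hPb
  have hC0 : 0 ≤ C := by
    have := hC 0
    rw [abs_zero, add_zero, mul_one] at this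
    exact (abs_nonneg _).trans this
  have h1 : (fun T : ℝ => ∫ u, P (v₀ - u / T) * K u) =ᶠ[atTop]
      (fun T : ℝ => ∫ v, P v * (T * K (T * (v₀ - v)))) := by
    filter_upwards [eventually_gt_atTop (0 : ℝ)] with T hT
    exact (at_subst P K v₀ T hT).symm
  refine Tendsto.congr' h1 ?_
  have h2 : P v₀ = ∫ u, P v₀ * K u := by
    rw [integral_const_mul, hK.mass, mul_one]
  rw [h2]
  refine tendsto_integral_filter_of_dominated_convergence
    (fun u => C * ((1 + |v₀|) * K u + |u| * K u)) ?_ ?_ ?_ ?_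
  · filter_upwards with T
    refine Continuous.aestronglyMeasurable ?_
    exact (hP.comp (by fun_prop)).mul hK.cont
  · filter_upwards [eventually_ge_atTop (1 : ℝ)] with T hT
    filter_upwards with u
    rw [norm_mul, Real.norm_eq_abs, Real.norm_eq_abs, abs_of_nonneg (hK.nonneg u)]
    have h3 : |v₀ - u / T| ≤ |v₀| + |u| := by
      refine (abs_sub _ _).trans ?_
      rw [abs_div, abs_of_pos (show 0 < T by linarith)]
      have : |u| / T ≤ |u| := div_le_self (abs_nonneg _) hT
      linarith
    have h4 : |P (v₀ - u / T)| ≤ C * (1 + (|v₀| + |u|)) :=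
      (hC _).trans (mul_le_mul_of_nonneg_left (by linarith) hC0)
    calc |P (v₀ - u / T)| * K u ≤ C * (1 + (|v₀| + |u|)) * K u :=
          mul_le_mul_of_nonneg_right h4 (hK.nonneg u)
      _ = _ := by ring
  · exact ((hK.int.const_mul _).add hK.mom).const_mul _
  · filter_upwards with u
    refine Tendsto.mul ?_ tendsto_const_nhds
    have h5 : Tendsto (fun T : ℝ => v₀ - u / T) atTop (𝓝 (v₀ - 0)) :=
      tendsto_const_nhds.sub (tendsto_const_nhds.div_atTop tendsto_id)
    rw [sub_zero] at h5
    exact (hP.tendsto v₀).comp h5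

end Pool.Agent.H23.MF
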