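import Pool.Agent.H25.MF.Targets

/-! Row CN of board mf_modules (MP_118735_nt). -/

set_option autoImplicit false

open Complex MeasureTheory Filter Topology

namespace Pool.Agent.H23.MF

open Pool.Agent.H25.MF

theorem cn_le (t : ℝ) : 1 - Real.cos t ≤ t ^ 2 / 2 := by
  have := Real.one_sub_sq_div_two_le_cos (x := t)
  linarith

theorem cn_abs (t : ℝ) : |(1 - Real.cos t) / t| ≤ |t| / 2 := by
  rcases eq_or_ne t 0 with h | h
  · subst h; simp
  · rw [abs_div, abs_of_nonneg (by have := Real.cos_le_one t; linarith),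
      div_le_iff₀ (abs_pos.mpr h)]
    have := cn_le t
    have h2 : |t| * |t| = t ^ 2 := by rw [← sq, sq_abs]
    nlinarith

theorem cn_cont : Continuous (fun t : ℝ => (1 - Real.cos t) / t) := by
  rw [continuous_iff_continuousAt]
  intro t
  rcases eq_or_ne t 0 with h | h
  · subst h
    have h0 : (1 - Real.cos 0) / 0 = (0 : ℝ) := by simp
    rw [ContinuousAt, h0]
    refine squeeze_zero_norm (a := fun t : ℝ => |t| / 2) (fun t => ?_) ?_
    · rw [Real.norm_eq_abs]; exact cn_abs t
    · have : Tendsto (fun t : ℝ => |t| / 2) (𝓝 0) (𝓝 (|(0 : ℝ)| / 2)) :=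
        (continuous_abs.div_const 2).tendsto 0
      simpa using this
  · exact (by fun_prop : ContinuousAt (fun t : ℝ => 1 - Real.cos t) t).div continuousAt_id h

theorem cn_series (t : ℝ) : HasSum (fun n : ℕ => (-1) ^ n * t ^ (2 * n + 1) /
    ((2 * n + 2).factorial : ℝ)) ((1 - Real.cos t) / t) := by
  rcases eq_or_ne t 0 with h | h
  · subst h
    simp only [div_zero]
    have : (fun n : ℕ => (-1) ^ n * (0 : ℝ) ^ (2 * n + 1) / ((2 * n + 2).factorial : ℝ)) =
        fun _ => 0 := by
      funext n
      rw [zero_pow (by omega)]; simp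
    rw [this]
    exact hasSum_zero
  · have h1 := Real.hasSum_cos t
    have h2 := (hasSum_nat_add_iff' 1).mpr h1
    have h3 := h2.mul_left (-1 / t)
    simp only [Finset.range_one, Finset.sum_singleton, pow_zero, mul_zero, Nat.factorial_zero,
      Nat.cast_one, div_one, mul_one] at h3
    have e1 : -1 / t * (Real.cos t - 1) = (1 - Real.cos t) / t := by
      field_simp; ring
    rw [e1] at h3
    have e2 : (fun n : ℕ => (-1) ^ n * t ^ (2 * n + 1) / ((2 * n + 2).factorial : ℝ)) =
        fun n : ℕ => -1 / t * ((-1) ^ (n + 1) * t ^ (2 * (n + 1)) /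
          ((2 * (n + 1)).factorial : ℝ)) := by
      funext n
      rw [show 2 * (n + 1) = 2 * n + 2 by ring, pow_succ (-1 : ℝ) n, pow_succ t (2 * n + 1)]
      field_simp
    rw [e2]
    exact h3

theorem cn_int (w : ℝ) (n : ℕ) : ∫ t in (0 : ℝ)..w, (-1) ^ n * t ^ (2 * n + 1) /
    ((2 * n + 2).factorial : ℝ) = (-1) ^ (n + 1 + 1) * w ^ (2 * (n + 1)) /
      (((2 * (n + 1)).factorial : ℝ) * (2 * ((n + 1 : ℕ) : ℝ))) := by
  have h1 : ∀ t : ℝ, (-1) ^ n * t ^ (2 * n + 1) / ((2 * n + 2).factorial : ℝ) =
      ((-1) ^ n / ((2 * n + 2).factorial : ℝ)) * t ^ (2 * n + 1) := fun t => by ring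
  simp_rw [h1]
  rw [intervalIntegral.integral_const_mul, integral_pow]
  rw [show 2 * (n + 1) = 2 * n + 2 by ring, zero_pow (by omega), pow_succ, pow_succ]
  push_cast
  field_simp
  ring

theorem cn_hasSum (w : ℝ) : HasSum (fun n : ℕ => (-1) ^ (n + 1) * w ^ (2 * n) /
    (((2 * n).factorial : ℝ) * (2 * n))) (Cin w) := by
  have hmain : HasSum (fun n : ℕ => ∫ t in (0 : ℝ)..w, (-1) ^ n * t ^ (2 * n + 1) /
      ((2 * n + 2).factorial : ℝ)) (∫ t in (0 : ℝ)..w, (1 - Real.cos t) / t) := by
    refine intervalIntegral.hasSum_integral_of_dominated_convergence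
      (fun n _ => |w| ^ (2 * n + 1) / ((2 * n + 2).factorial : ℝ)) ?_ ?_ ?_ ?_ ?_
    · intro n
      exact (by fun_prop : Continuous (fun t : ℝ => (-1) ^ n * t ^ (2 * n + 1) /
        ((2 * n + 2).factorial : ℝ))).aestronglyMeasurable
    · intro n
      filter_upwards with t ht
      rw [norm_div, norm_mul, norm_pow, norm_pow, norm_neg, norm_one, one_pow, one_mul,
        Real.norm_natCast, Real.norm_eq_abs]
      refine div_le_div_of_nonneg_right ?_ (Nat.cast_nonneg _)
      refine pow_le_pow_left₀ (abs_nonneg _) ?_ _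
      rw [Set.mem_uIoc] at ht
      rcases ht with ht | ht
      · rw [abs_of_pos ht.1]; exact ht.2.trans (le_abs_self _)
      · rw [abs_of_nonpos ht.2, abs_of_nonpos (ht.1.le.trans ht.2)]; linarith [ht.1]
    · filter_upwards with t _
      have h1 : Summable (fun n : ℕ => |w| ^ (2 * n + 1) / ((2 * n + 1).factorial : ℝ)) :=
        (Real.summable_pow_div_factorial |w|).comp_injective
          (i := fun n : ℕ => 2 * n + 1) (fun a b h => by simpa using h)
      refine Summable.of_nonneg_of_le (fun n => by positivity) (fun n => ?_) h1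
      refine div_le_div_of_nonneg_left (by positivity) (by positivity) ?_
      exact_mod_cast Nat.factorial_le (by omega)
    · exact intervalIntegrable_const
    · filter_upwards with t _
      exact cn_series t
  rw [← hasSum_nat_add_iff' 1]
  simp only [Finset.range_one, Finset.sum_singleton, mul_zero, Nat.cast_zero, div_zero, sub_zero]
  have : (fun n : ℕ => (-1) ^ (n + 1 + 1) * w ^ (2 * (n + 1)) /
      (((2 * (n + 1)).factorial : ℝ) * (2 * ((n + 1 : ℕ) : ℝ)))) = fun n : ℕ =>
      ∫ t in (0 : ℝ)..w, (-1) ^ n * t ^ (2 * n + 1) / ((2 * n + 2).factorial : ℝ) := by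
    funext n
    exact (cn_int w n).symm
  rw [this]
  exact hmain

theorem cn_ii (a b : ℝ) : IntervalIntegrable (fun t : ℝ => (1 - Real.cos t) / t) volume a b :=
  cn_cont.intervalIntegrable a b

theorem pf_CN : T_CN := by
  refine ⟨?_, cn_hasSum, ?_, ?_⟩
  · exact intervalIntegral.continuous_primitive cn_ii 0
  · intro w hw
    constructor
    · refine intervalIntegral.integral_nonneg hw (fun t ht => ?_)
      exact div_nonneg (by have := Real.cos_le_one t; linarith) ht.1
    · have h1 : Cin w ≤ ∫ t in (0 : ℝ)..w, t / 2 := by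
        refine intervalIntegral.integral_mono_on hw (cn_ii 0 w)
          ((by fun_prop : Continuous (fun t : ℝ => t / 2)).intervalIntegrable 0 w) (fun t ht => ?_)
        have := cn_abs t
        rw [abs_of_nonneg ht.1] at this
        exact (le_abs_self _).trans this
      have h2 : ∫ t in (0 : ℝ)..w, t / 2 = w ^ 2 / 4 := by
        rw [intervalIntegral.integral_div, integral_id]; ring
      linarith
  · refine ⟨16, ?_⟩
    intro w hw
    have hr : IntervalIntegrable (fun t : ℝ => 2 * t ^ (-(7 / 8) : ℝ)) volume 0 w :=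
      (intervalIntegral.intervalIntegrable_rpow' (by norm_num)).const_mul 2
    have h1 : Cin w ≤ ∫ t in (0 : ℝ)..w, 2 * t ^ (-(7 / 8) : ℝ) := by
      refine intervalIntegral.integral_mono_on_of_le_Ioo hw (cn_ii 0 w) hr (fun t ht => ?_)
      have ht0 : 0 < t := ht.1
      rcases le_total t 1 with h | h
      · have h2 := cn_abs t
        rw [abs_of_pos ht0] at h2
        have h3 : 1 ≤ t ^ (-(7 / 8) : ℝ) := Real.one_le_rpow_of_pos_of_le_one_of_nonpos ht0 h
          (by norm_num)
        have h4 := le_abs_self ((1 - Real.cos t) / t)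
        linarith
      · have h2 : (1 - Real.cos t) / t ≤ 2 / t := by
          refine div_le_div_of_nonneg_right ?_ ht0.le
          have := Real.neg_one_le_cos t
          linarith
        have h3 : t ^ (-1 : ℝ) ≤ t ^ (-(7 / 8) : ℝ) :=
          Real.rpow_le_rpow_of_exponent_le h (by norm_num)
        rw [Real.rpow_neg_one] at h3
        have h4 : 2 / t = 2 * t⁻¹ := by ring
        linarith
    have h5 : ∫ t in (0 : ℝ)..w, 2 * t ^ (-(7 / 8) : ℝ) = 16 * w ^ (1 / 8 : ℝ) := by
      rw [intervalIntegral.integral_const_mul, integral_rpow (Or.inl (by norm_num))]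
      rw [show (-(7 / 8) + 1 : ℝ) = 1 / 8 by norm_num, Real.zero_rpow (by norm_num)]
      ring
    linarith

end Pool.Agent.H23.MF
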