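import Pool.Agent.H25.MF.Targets

/-! Helper for rows LK and LP of board mf_modules (MP_118735_nt). -/

set_option autoImplicit false

open Complex MeasureTheory Filter Topology

namespace Pool.Agent.H23.MF

open Pool.Agent.H25.MF

theorem conv_subst (g k : ℝ → ℝ) (v₀ : ℝ) :
    ∫ v, g v * k (v₀ - v) = ∫ u, g (v₀ - u) * k u := by
  have h := integral_sub_left_eq_self (fun u : ℝ => g (v₀ - u) * k u) volume v₀
  rw [← h]
  refine integral_congr_ae (Eventually.of_forall (fun v => ?_))
  simp only [sub_sub_cancel]

theorem conv_evle (g k b : ℝ → ℝ) (hg : Measurable g) (hkm : Measurable k) (hk : Integrable k)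
    (hk0 : ∀ u, 0 ≤ k u) (hk1 : ∫ u, k u = 1) (hb : ∀ s t, 0 ≤ s → s ≤ t → b s ≤ b t)
    (hgb : ∀ v, |g v| ≤ b |v|) (hbi : ∀ A, 0 ≤ A → Integrable (fun u => b (A + |u|) * k u))
    (c : ℝ) (hc : EvLe g c) : EvLe (fun v₀ => ∫ v, g v * k (v₀ - v)) c := by
  intro ε hε
  obtain ⟨V, hV⟩ := eventually_atTop.1 (hc (ε / 2) (by linarith))
  set Q : ℝ → ℝ := fun v => max (g v - (c + ε / 2)) 0 with hQ
  have hQm : Measurable Q := (hg.sub measurable_const).max measurable_const
  have hQ0 : ∀ v, 0 ≤ Q v := fun v => le_max_right _ _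
  have hQV : ∀ v, V ≤ v → Q v = 0 := by
    intro v hv
    have := hV v hv
    simp only [hQ]
    exact max_eq_right (by linarith)
  have hb0 : ∀ t, 0 ≤ t → 0 ≤ b t := by
    intro t ht
    have := hgb t
    rw [abs_of_nonneg ht] at this
    exact (abs_nonneg _).trans this
  set d : ℝ := |c + ε / 2| with hd
  have hQb : ∀ v, Q v ≤ b |v| + d := by
    intro v
    refine max_le ?_ (add_nonneg (hb0 _ (abs_nonneg _)) (abs_nonneg _))
    have h1 := le_abs_self (g v)
    have h2 := hgb v
    have h3 := neg_abs_le (c + ε / 2)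
    linarith
  have hlim : Tendsto (fun v₀ : ℝ => ∫ u, Q (v₀ - u) * k u) atTop (𝓝 (∫ _u : ℝ, (0 : ℝ))) := by
    refine tendsto_integral_filter_of_dominated_convergence
      (fun u => b (|V| + |u|) * k u + d * k u) ?_ ?_ ?_ ?_
    · filter_upwards with v₀
      exact ((hQm.comp (measurable_const.sub measurable_id)).mul hkm).aestronglyMeasurable
    · filter_upwards [eventually_ge_atTop (0 : ℝ)] with v₀ hv₀
      filter_upwards with u
      rw [norm_mul, Real.norm_eq_abs, Real.norm_eq_abs, abs_of_nonneg (hk0 u),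
        abs_of_nonneg (hQ0 _), ← add_mul]
      refine mul_le_mul_of_nonneg_right ?_ (hk0 u)
      by_cases h : V ≤ v₀ - u
      · rw [hQV _ h]
        exact add_nonneg (hb0 _ (by positivity)) (abs_nonneg _)
      · push Not at h
        refine (hQb _).trans ?_
        have h1 : |v₀ - u| ≤ |V| + |u| := by
          rw [abs_le]
          have := le_abs_self V
          have := abs_nonneg V
          have := abs_nonneg u
          have := le_abs_self u
          constructor <;> linarith
        have := hb _ _ (abs_nonneg _) h1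
        linarith
    · exact (hbi _ (abs_nonneg V)).add (hk.const_mul d)
    · filter_upwards with u
      refine tendsto_const_nhds.congr' ?_
      filter_upwards [eventually_ge_atTop (V + u)] with v₀ hv₀
      rw [hQV _ (by linarith), zero_mul]
  rw [integral_zero] at hlim
  filter_upwards [hlim.eventually (gt_mem_nhds (show (0 : ℝ) < ε / 2 by linarith))] with v₀ h1
  rw [conv_subst]
  have hi1 : Integrable (fun u => g (v₀ - u) * k u) := by
    refine Integrable.mono' (hbi _ (abs_nonneg v₀))
      ((hg.comp (measurable_const.sub measurable_id)).mul hkm).aestronglyMeasurable ?_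
    filter_upwards with u
    rw [norm_mul, Real.norm_eq_abs, Real.norm_eq_abs, abs_of_nonneg (hk0 u)]
    refine mul_le_mul_of_nonneg_right ?_ (hk0 u)
    exact (hgb _).trans (hb _ _ (abs_nonneg _) (abs_sub _ _))
  have hi2 : Integrable (fun u => Q (v₀ - u) * k u) := by
    refine Integrable.mono' ((hbi _ (abs_nonneg v₀)).add (hk.const_mul d))
      ((hQm.comp (measurable_const.sub measurable_id)).mul hkm).aestronglyMeasurable ?_
    filter_upwards with u
    rw [norm_mul, Real.norm_eq_abs, Real.norm_eq_abs, abs_of_nonneg (hk0 u),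
        abs_of_nonneg (hQ0 _)]
    have h2 : Q (v₀ - u) ≤ b (|v₀| + |u|) + d :=
      (hQb _).trans (by have := hb _ _ (abs_nonneg _) (abs_sub v₀ u); linarith)
    have h3 := mul_le_mul_of_nonneg_right h2 (hk0 u)
    rw [add_mul] at h3
    exact h3
  have h2 : ∫ u, g (v₀ - u) * k u ≤ ∫ u, ((c + ε / 2) * k u + Q (v₀ - u) * k u) := by
    refine integral_mono hi1 ((hk.const_mul _).add hi2) ?_
    intro u
    have h3 : g (v₀ - u) ≤ (c + ε / 2) + Q (v₀ - u) := by
      have := le_max_left (g (v₀ - u) - (c + ε / 2)) 0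
      simp only [hQ]
      linarith
    have h4 := mul_le_mul_of_nonneg_right h3 (hk0 u)
    rw [add_mul] at h4
    exact h4
  rw [integral_add (hk.const_mul _) hi2, integral_const_mul, hk1] at h2
  linarith

end Pool.Agent.H23.MF
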