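import Pool.Agent.H25.MF.Targets

/-! Row GI of board mf_modules (MP_118735_nt). -/

set_option autoImplicit false

open Complex MeasureTheory

namespace Pool.Agent.H23.MF

open Pool.Agent.H25.MF

theorem pf_GI : T_GI := by
  intro τ σ w hτ
  have hτ2 : 0 < τ ^ 2 := by positivity
  have hb : (-((τ : ℂ) ^ 2) / 2).re < 0 := by
    have : (-((τ : ℂ) ^ 2) / 2) = ((-(τ ^ 2) / 2 : ℝ) : ℂ) := by push_cast; ring
    rw [this, Complex.ofReal_re]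
    linarith
  have h1 : ∀ t : ℝ, cexp ((σ + t * I) * w + τ ^ 2 * (σ + t * I) ^ 2 / 2) =
      cexp ((-((τ : ℂ) ^ 2) / 2) * (t : ℂ) ^ 2 + (I * (w + τ ^ 2 * σ)) * t +
        (σ * w + τ ^ 2 * σ ^ 2 / 2)) := by
    intro t
    congr 1
    have : (I : ℂ) ^ 2 = -1 := Complex.I_sq
    linear_combination (τ ^ 2 * t ^ 2 / 2 : ℂ) * this
  simp_rw [h1]
  rw [integral_cexp_quadratic hb]
  have hτc : (τ : ℂ) ≠ 0 := by exact_mod_cast hτ.ne'
  have h2 : (σ * w + τ ^ 2 * σ ^ 2 / 2 - (I * (w + τ ^ 2 * σ)) ^ 2 / (4 * (-((τ : ℂ) ^ 2) / 2)) : ℂ)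
      = ((-(w ^ 2 / (2 * τ ^ 2)) : ℝ) : ℂ) := by
    push_cast
    rw [mul_pow, Complex.I_sq]
    field_simp
    ring
  rw [h2]
  have h3 : (Real.pi / -(-((τ : ℂ) ^ 2) / 2) : ℂ) = ((2 * Real.pi / τ ^ 2 : ℝ) : ℂ) := by
    push_cast
    field_simp
  rw [h3]
  have h4 : (((2 * Real.pi / τ ^ 2 : ℝ) : ℂ)) ^ (1 / 2 : ℂ) = ((√(2 * Real.pi) / τ : ℝ) : ℂ) := by
    have h5 : (1 / 2 : ℂ) = ((1 / 2 : ℝ) : ℂ) := by push_cast; rfl
    rw [h5, ← Complex.ofReal_cpow (by positivity), ← Real.sqrt_eq_rpow,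
      Real.sqrt_div (by positivity), Real.sqrt_sq hτ.le]
  rw [h4]
  have h6 : gs τ w = (2 * Real.pi)⁻¹ * (√(2 * Real.pi) / τ * Real.exp (-(w ^ 2 / (2 * τ ^ 2)))) := by
    unfold gs
    have h7 : √(2 * Real.pi) * √(2 * Real.pi) = 2 * Real.pi :=
      Real.mul_self_sqrt (by positivity)
    have h8 : √(2 * Real.pi) ≠ 0 := by positivity
    have h9 : (2 * Real.pi)⁻¹ * √(2 * Real.pi) = (√(2 * Real.pi))⁻¹ := by
      generalize √(2 * Real.pi) = q at h7 h8 ⊢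
      rw [← h7]
      field_simp
    calc (τ * √(2 * Real.pi))⁻¹ * Real.exp (-(w ^ 2 / (2 * τ ^ 2)))
        = (√(2 * Real.pi))⁻¹ * (1 / τ * Real.exp (-(w ^ 2 / (2 * τ ^ 2)))) := by
          rw [mul_inv]; ring
      _ = _ := by rw [← h9]; ring
  rw [h6]
  push_cast
  ring

end Pool.Agent.H23.MF
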