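import Pool.Agent.H23.MF.Conv

/-! Row LK of board mf_modules (MP_118735_nt). -/

set_option autoImplicit false

open Complex MeasureTheory Filter Topology

namespace Pool.Agent.H23.MF

open Pool.Agent.H25.MF

theorem pf_LK : T_LK := by
  intro P hP hPb c hc K Kh T hK
  obtain ⟨C, hC⟩ := hPb
  have hC0 : 0 ≤ C := by
    have := hC 0
    rw [abs_zero, add_zero, mul_one] at this
    exact (abs_nonneg _).trans this
  refine conv_evle P K (fun t => C * (1 + t)) hP.measurable hK.cont.measurable hK.int hK.nonneg
    hK.mass ?_ hC ?_ c hc
  · intro s t _ hst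
    exact mul_le_mul_of_nonneg_left (by linarith) hC0
  · intro A _
    have h : (fun u => C * (1 + (A + |u|)) * K u) = fun u => C * ((1 + A) * K u + |u| * K u) := by
      funext u; ring
    rw [h]
    exact ((hK.int.const_mul _).add hK.mom).const_mul _

end Pool.Agent.H23.MF
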