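import Pool.Agent.H23.MF.Conv

/-! Row LP of board mf_modules (MP_118735_nt). -/

set_option autoImplicit false

open Complex MeasureTheory Filter Topology

namespace Pool.Agent.H23.MF

open Pool.Agent.H25.MF

theorem gs_eq (τ : ℝ) : gs τ = fun v => (τ * √(2 * Real.pi))⁻¹ *
    Real.exp (-(1 / (2 * τ ^ 2)) * v ^ 2) := by
  funext v
  unfold gs
  congr 2
  ring

theorem gs_int (τ : ℝ) (hτ : 0 < τ) : Integrable (gs τ) := by
  rw [gs_eq]
  exact (integrable_exp_neg_mul_sq (by positivity)).const_mul _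

theorem gs_mass (τ : ℝ) (hτ : 0 < τ) : ∫ v, gs τ v = 1 := by
  rw [gs_eq, integral_const_mul, integral_gaussian]
  have h1 : Real.pi / (1 / (2 * τ ^ 2)) = (2 * Real.pi) * τ ^ 2 := by field_simp
  rw [h1, Real.sqrt_mul (show (0 : ℝ) ≤ 2 * Real.pi by positivity) (τ ^ 2), Real.sqrt_sq hτ.le]
  have h8 : √(2 * Real.pi) ≠ 0 := by positivity
  generalize √(2 * Real.pi) = q at h8 ⊢
  field_simp

theorem gs_exp (τ s : ℝ) (hτ : 0 < τ) :
    Integrable (fun u => Real.exp (s * |u|) * gs τ u) := by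
  have hb : (0 : ℝ) < 1 / (4 * τ ^ 2) := by positivity
  have h1 : Integrable (fun u => Real.exp (τ ^ 2 * s ^ 2) * ((τ * √(2 * Real.pi))⁻¹ *
      Real.exp (-(1 / (4 * τ ^ 2)) * u ^ 2))) :=
    ((integrable_exp_neg_mul_sq hb).const_mul _).const_mul _
  refine Integrable.mono' h1 ?_ ?_
  · rw [gs_eq]
    exact (by fun_prop : Continuous (fun u => Real.exp (s * |u|) * ((τ * √(2 * Real.pi))⁻¹ *
      Real.exp (-(1 / (2 * τ ^ 2)) * u ^ 2)))).aestronglyMeasurable
  · filter_upwards with u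
    have h0 : 0 ≤ (τ * √(2 * Real.pi))⁻¹ := by positivity
    rw [gs_eq, Real.norm_eq_abs, abs_of_nonneg (by positivity)]
    have h2 : Real.exp (s * |u|) * Real.exp (-(1 / (2 * τ ^ 2)) * u ^ 2) ≤
        Real.exp (τ ^ 2 * s ^ 2) * Real.exp (-(1 / (4 * τ ^ 2)) * u ^ 2) := by
      rw [← Real.exp_add, ← Real.exp_add, Real.exp_le_exp]
      have h3 : 0 ≤ (|u| / (2 * τ) - τ * s) ^ 2 := sq_nonneg _
      have h4 : (|u| / (2 * τ) - τ * s) ^ 2 = 1 / (4 * τ ^ 2) * u ^ 2 - s * |u| +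
          τ ^ 2 * s ^ 2 := by
        have h5 : |u| ^ 2 = u ^ 2 := sq_abs u
        rw [sub_sq, div_pow, h5]
        field_simp
        ring
      have h6 : 1 / (2 * τ ^ 2) * u ^ 2 = 1 / (4 * τ ^ 2) * u ^ 2 + 1 / (4 * τ ^ 2) * u ^ 2 := by
        field_simp; ring
      linarith
    calc Real.exp (s * |u|) * ((τ * √(2 * Real.pi))⁻¹ * Real.exp (-(1 / (2 * τ ^ 2)) * u ^ 2))
        = (τ * √(2 * Real.pi))⁻¹ *
          (Real.exp (s * |u|) * Real.exp (-(1 / (2 * τ ^ 2)) * u ^ 2)) := by ring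
      _ ≤ (τ * √(2 * Real.pi))⁻¹ *
          (Real.exp (τ ^ 2 * s ^ 2) * Real.exp (-(1 / (4 * τ ^ 2)) * u ^ 2)) :=
          mul_le_mul_of_nonneg_left h2 h0
      _ = _ := by ring

theorem pf_LP : T_LP := by
  intro g hg c τ hc hτ
  obtain ⟨hgm, B, hB⟩ := hg
  have hB0 : 0 ≤ B := by
    have := hB 0
    rw [abs_zero, mul_zero, Real.exp_zero, mul_one] at this
    exact (abs_nonneg _).trans this
  refine conv_evle g (gs τ) (fun t => B * Real.exp (5 / 8 * t)) hgm ?_ (gs_int τ hτ) ?_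
    (gs_mass τ hτ) ?_ hB ?_ c hc
  · rw [gs_eq]
    exact (by fun_prop : Continuous (fun v : ℝ => (τ * √(2 * Real.pi))⁻¹ *
      Real.exp (-(1 / (2 * τ ^ 2)) * v ^ 2))).measurable
  · intro u
    unfold gs
    positivity
  · intro s t _ hst
    exact mul_le_mul_of_nonneg_left (Real.exp_le_exp.mpr (by linarith)) hB0
  · intro A _
    have h : (fun u => B * Real.exp (5 / 8 * (A + |u|)) * gs τ u) =
        fun u => (B * Real.exp (5 / 8 * A)) * (Real.exp (5 / 8 * |u|) * gs τ u) := by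
      funext u
      rw [mul_add, Real.exp_add]
      ring
    rw [h]
    exact (gs_exp τ _ hτ).const_mul _

end Pool.Agent.H23.MF
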