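import Pool.Agent.H25.MF.Targets

/-! Row NV of board mf_modules (MP_118735_nt). -/

set_option autoImplicit false

open Complex

namespace Pool.Agent.H23.MF

open Pool.Agent.H25.MF

theorem gr_ne {s : ℂ} (h1 : -(1 / 2) < s.re) (h0 : s ≠ 0) : Gammaℝ s ≠ 0 := by
  intro h
  rw [Complex.Gammaℝ_eq_zero_iff] at h
  obtain ⟨n, hn⟩ := h
  rcases Nat.eq_zero_or_pos n with h2 | h2
  · subst h2
    apply h0
    rw [hn]
    simp
  · have h3 : s.re = -(2 * n) := by rw [hn]; simp
    have h4 : (1 : ℝ) ≤ n := by exact_mod_cast h2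
    linarith

theorem nv_refl {s : ℂ} (h1 : -(1 / 2) < s.re) (h0 : s ≠ 0) (hs1 : s ≠ 1)
    (hz : riemannZeta s = 0) : riemannZeta (1 - s) = 0 := by
  have h2 : completedRiemannZeta s = 0 := by
    rw [riemannZeta_def_of_ne_zero h0, div_eq_zero_iff] at hz
    rcases hz with h | h
    · exact h
    · exact absurd h (gr_ne h1 h0)
  have h3 : (1 : ℂ) - s ≠ 0 := sub_ne_zero.mpr (Ne.symm hs1)
  rw [riemannZeta_def_of_ne_zero h3, completedRiemannZeta_one_sub, h2, zero_div]

theorem pf_NV : T_NV := by
  constructor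
  · intro h s h1 h2 hz
    by_cases h0 : s = 0
    · rw [h0, riemannZeta_zero] at hz
      norm_num at hz
    · have hs1 : s ≠ 1 := by
        intro h; rw [h] at h2; norm_num at h2
      have h3 := nv_refl h1 h0 hs1 hz
      refine h (1 - s) ?_ ?_ h3
      · rw [Complex.sub_re, Complex.one_re]; linarith
      · intro h4
        apply h0
        have : s = 1 - (1 - s) := by ring
        rw [this, h4]; ring
  · intro h s h1 hs1 hz
    by_cases h2 : 1 ≤ s.re
    · exact riemannZeta_ne_zero_of_one_le_re h2 hz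
    · push Not at h2
      have h0 : s ≠ 0 := by
        intro h; rw [h] at h1; norm_num at h1
      have h3 := nv_refl (by linarith) h0 hs1 hz
      refine h (1 - s) ?_ ?_ h3
      · rw [Complex.sub_re, Complex.one_re]; linarith
      · rw [Complex.sub_re, Complex.one_re]; linarith

end Pool.Agent.H23.MF
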