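import Pool.Agent.H25.MF.Targets

/-! Row RE of board mf_modules (MP_118735_nt). -/

set_option autoImplicit false

open Complex

namespace Pool.Agent.H23.MF

open Pool.Agent.H25.MF

theorem re_norm (γ w : ℝ) : ‖cexp (γ * w * I)‖ = 1 := by
  have : (γ * w * I : ℂ) = ((γ * w : ℝ) : ℂ) * I := by push_cast; ring
  rw [this, Complex.norm_exp_ofReal_mul_I]

theorem re_shift (γ w w' v : ℝ) :
    ‖cexp (γ * ((v + (w - w') : ℝ) : ℂ) * I) - cexp (γ * v * I)‖ =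
      ‖cexp (γ * w * I) - cexp (γ * w' * I)‖ := by
  have h1 : cexp (γ * ((v + (w - w') : ℝ) : ℂ) * I) - cexp (γ * v * I) =
      (cexp (γ * w * I) - cexp (γ * w' * I)) * cexp (γ * ((v - w' : ℝ) : ℂ) * I) := by
    rw [sub_mul, ← Complex.exp_add, ← Complex.exp_add]
    congr 2
    · push_cast; ring
    · push_cast; ring
  rw [h1, norm_mul, re_norm, mul_one]

theorem re_cover (S : Finset ℝ) (η : ℝ) (hη : 0 < η) : ∃ W : ℝ, 0 ≤ W ∧ ∀ w : ℝ, ∃ w' : ℝ,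
    |w'| ≤ W ∧ ∀ γ ∈ S, ‖cexp (γ * w * I) - cexp (γ * w' * I)‖ < η := by
  classical
  set f : ℝ → (S → ℂ) := fun w γ => cexp ((γ : ℝ) * w * I) with hf
  have hsub : Set.range f ⊆ Metric.closedBall (0 : S → ℂ) 1 := by
    rintro _ ⟨w, rfl⟩
    rw [mem_closedBall_zero_iff, pi_norm_le_iff_of_nonneg zero_le_one]
    intro γ
    exact (re_norm _ _).le
  have htb : TotallyBounded (Set.range f) :=
    (isCompact_closedBall (0 : S → ℂ) 1).totallyBounded.subset hsub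
  obtain ⟨t, ht1, ht2, ht3⟩ := Metric.finite_approx_of_totallyBounded htb η hη
  have hch : ∀ y : t, ∃ w : ℝ, f w = y.1 := fun y => ht1 y.2
  choose g hg using hch
  have : Finite t := ht2
  have hb : BddAbove (Set.range (fun y : t => |g y|)) := Set.finite_range _ |>.bddAbove
  obtain ⟨W, hW⟩ := hb
  refine ⟨max W 0, le_max_right _ _, ?_⟩
  intro w
  have h1 := ht3 (Set.mem_range_self w)
  rw [Set.mem_iUnion₂] at h1
  obtain ⟨y, hy, hwy⟩ := h1
  refine ⟨g ⟨y, hy⟩, ?_, ?_⟩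
  · exact (hW (Set.mem_range_self (⟨y, hy⟩ : t))).trans (le_max_left _ _)
  · intro γ hγ
    have h0 : f (g ⟨y, hy⟩) = y := hg ⟨y, hy⟩
    rw [Metric.mem_ball, dist_eq_norm] at hwy
    have h2 := (pi_norm_lt_iff hη).mp hwy ⟨γ, hγ⟩
    rw [Pi.sub_apply, ← h0] at h2
    exact h2

theorem pf_RE : T_RE := by
  intro S a ε hε
  have hs : 0 ≤ ∑ γ ∈ S, ‖a γ‖ := Finset.sum_nonneg (fun _ _ => norm_nonneg _)
  set η : ℝ := ε / (1 + ∑ γ ∈ S, ‖a γ‖) with hη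
  have hη0 : 0 < η := by positivity
  obtain ⟨W, hW0, hW⟩ := re_cover S η hη0
  refine ⟨2 * W + 1, by linarith, ?_⟩
  intro v₀ V
  obtain ⟨w', hw', hc⟩ := hW (V - v₀ + W)
  have hab := abs_le.mp hw'
  refine ⟨v₀ + ((V - v₀ + W) - w'), by linarith, by linarith, ?_⟩
  rw [← Finset.sum_sub_distrib]
  have h1 : ∀ γ ∈ S, ‖a γ * cexp (γ * ((v₀ + ((V - v₀ + W) - w') : ℝ) : ℂ) * I) -
      a γ * cexp (γ * v₀ * I)‖ ≤ ‖a γ‖ * η := by
    intro γ hγ
    rw [← mul_sub, norm_mul, re_shift]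
    exact mul_le_mul_of_nonneg_left (hc γ hγ).le (norm_nonneg _)
  refine (norm_sum_le_of_le S h1).trans_lt ?_
  rw [← Finset.sum_mul, hη, ← mul_div_assoc, div_lt_iff₀ (by linarith)]
  nlinarith

end Pool.Agent.H23.MF
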