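import Pool.Agent.H25.MF.Targets

/-! Row SY of board mf_modules (MP_118735_nt). -/

set_option autoImplicit false

open Complex MeasureTheory Filter Topology

namespace Pool.Agent.H23.MF

open Pool.Agent.H25.MF

theorem sy_bd (H : ℂ → ℂ) (h : Bd H) : Bd (fun z => -H (-z)) := by
  obtain ⟨C, k, hC⟩ := h
  refine ⟨C, k, ?_⟩
  intro z h1 h2
  have h3 := hC (-z) (by rw [Complex.neg_re, abs_neg]; exact h1)
    (by rw [Complex.neg_re, abs_neg]; exact h2)
  rw [Complex.neg_re, Complex.neg_im, abs_neg, abs_neg] at h3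
  rw [norm_neg]
  exact h3

theorem sy_df (H : ℂ → ℂ) (h : Df H) : Df (fun z => -H (-z)) := by
  intro z h1 h2
  have h3 := h (-z) (by rw [Complex.neg_re, abs_neg]; exact h1)
    (by rw [Complex.neg_re, abs_neg]; exact h2)
  exact (DifferentiableAt.comp z h3 differentiableAt_id.neg).neg

theorem sy_lo (H : ℂ → ℂ) (T : ℝ) (h : Lo H T) : Lo (fun z => -H (-z)) T := by
  classical
  obtain ⟨S, a, δ, C, hδ, h1, h2⟩ := h
  refine ⟨S.image (fun x => -x), fun γ => a (-γ), δ, C, hδ, ?_, ?_⟩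
  · intro z hz1 hz2 hz3
    have h3 := h1 (-z) (by rw [Complex.neg_re, abs_neg]; exact hz1)
      (by rw [Complex.neg_re, abs_neg]; exact hz2) (by rw [Complex.neg_im, abs_neg]; exact hz3)
    rw [Finset.sum_image (fun x _ y _ hxy => neg_injective hxy)]
    have h4 : -H (-z) - ∑ γ ∈ S, a (-(-γ)) / (z - ((-γ : ℝ) : ℂ) * I) =
        -(H (-z) - ∑ γ ∈ S, a γ / (-z - (γ : ℂ) * I)) := by
      rw [neg_sub, sub_eq_add_neg, ← Finset.sum_neg_distrib, add_comm, sub_eq_add_neg]
      congr 1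
      refine Finset.sum_congr rfl (fun γ _ => ?_)
      rw [neg_neg, ← div_neg]
      congr 1
      push_cast
      ring
    rw [h4, norm_neg]
    exact h3
  · intro t ht1 ht2
    have h3 : -t ∉ S := by
      intro h
      apply ht2
      rw [Finset.mem_image]
      exact ⟨-t, h, neg_neg t⟩
    have h4 := h2 (-t) (by rw [abs_neg]; exact ht1) h3
    have h5 : ContinuousAt (fun z : ℂ => -z) ((t : ℂ) * I) := continuousAt_neg
    have h6 : ((-t : ℝ) : ℂ) * I = -((t : ℂ) * I) := by push_cast; ring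
    rw [h6] at h4
    exact (ContinuousAt.comp (f := fun z : ℂ => -z) (g := H) h4 h5).neg

theorem sy_a (g : ℝ → ℝ) (H : ℂ → ℂ) (h : Hyp g H) :
    Hyp (fun v => g (-v)) (fun z => -H (-z)) := by
  refine ⟨?_, sy_df H h.df, sy_bd H h.bd, ?_, ?_, fun T => sy_lo H T (h.lo T)⟩
  · obtain ⟨h1, B, hB⟩ := h.gr
    refine ⟨h1.comp measurable_neg, B, ?_⟩
    intro v
    have := hB (-v)
    rwa [abs_neg] at this
  · intro t
    have h1 := h.minus (-t)
    have h2 : -((((3 / 4 : ℝ) : ℂ)) + (t : ℂ) * I) =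
        ((-(3 / 4 : ℝ) : ℝ) : ℂ) + ((-t : ℝ) : ℂ) * I := by push_cast; ring
    simp only [h2]
    rw [h1, neg_neg, ← integral_Iic_eq_integral_Iio]
    have h3 := integral_comp_neg_Ioi (0 : ℝ)
      (fun v : ℝ => (g v : ℂ) * cexp (-((((-(3 / 4) : ℝ) : ℂ) + ((-t : ℝ) : ℂ) * I) * v)))
    rw [neg_zero] at h3
    rw [← h3]
    refine integral_congr_ae (Eventually.of_forall (fun v => ?_))
    simp only
    congr 2
    push_cast
    ring
  · intro t
    have h1 := h.plus (-t)
    have h2 : -((((-(3 / 4) : ℝ) : ℂ)) + (t : ℂ) * I) =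
        ((3 / 4 : ℝ) : ℂ) + ((-t : ℝ) : ℂ) * I := by push_cast; ring
    simp only [h2]
    rw [h1, ← integral_Iic_eq_integral_Iio]
    have h3 := integral_comp_neg_Iic (0 : ℝ)
      (fun v : ℝ => (g v : ℂ) * cexp (-((((3 / 4 : ℝ) : ℂ) + ((-t : ℝ) : ℂ) * I) * v)))
    rw [neg_zero] at h3
    rw [← h3]
    congr 1
    refine integral_congr_ae (Eventually.of_forall (fun v => ?_))
    simp only
    congr 2
    push_cast
    ring

theorem sy_b (g : ℝ → ℝ) (H : ℂ → ℂ) (h : Hyp g H) :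
    Hyp (fun v => -g v) (fun z => -H z) := by
  refine ⟨?_, fun z h1 h2 => (h.df z h1 h2).neg, ?_, ?_, ?_, ?_⟩
  · obtain ⟨h1, B, hB⟩ := h.gr
    refine ⟨h1.neg, B, ?_⟩
    intro v
    rw [abs_neg]
    exact hB v
  · obtain ⟨C, k, hC⟩ := h.bd
    refine ⟨C, k, fun z h1 h2 => ?_⟩
    rw [norm_neg]
    exact hC z h1 h2
  · intro t
    rw [h.plus t, ← integral_neg]
    refine integral_congr_ae (Eventually.of_forall (fun v => ?_))
    simp only
    push_cast
    ring
  · intro t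
    rw [h.minus t, neg_neg, ← integral_neg]
    refine integral_congr_ae (Eventually.of_forall (fun v => ?_))
    simp only
    push_cast
    ring
  · intro T
    obtain ⟨S, a, δ, C, hδ, h1, h2⟩ := h.lo T
    refine ⟨S, fun γ => -a γ, δ, C, hδ, ?_, fun t ht1 ht2 => (h2 t ht1 ht2).neg⟩
    intro z hz1 hz2 hz3
    have h3 := h1 z hz1 hz2 hz3
    have h4 : -H z - ∑ γ ∈ S, -a γ / (z - (γ : ℂ) * I) =
        -(H z - ∑ γ ∈ S, a γ / (z - (γ : ℂ) * I)) := by
      have : ∑ γ ∈ S, -a γ / (z - (γ : ℂ) * I) = -∑ γ ∈ S, a γ / (z - (γ : ℂ) * I) := by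
        rw [← Finset.sum_neg_distrib]
        exact Finset.sum_congr rfl (fun γ _ => neg_div _ _)
      rw [this]; ring
    rw [h4, norm_neg]
    exact h3

theorem sy_c (K : ℝ → ℝ) (Kh : ℝ → ℂ) (h : Ker K Kh 1) (T : ℝ) (hT : 0 < T) :
    Ker (fun v => T * K (T * v)) (fun t => Kh (t / T)) T := by
  refine ⟨?_, ?_, ?_, ?_, ?_, ?_, ?_, ?_⟩
  · exact continuous_const.mul (h.cont.comp (continuous_const.mul continuous_id))
  · intro v
    exact mul_nonneg hT.le (h.nonneg _)
  · exact (h.int.comp_mul_left' hT.ne').const_mul T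
  · have h1 := Measure.integral_comp_mul_left (fun v => K v) T
    rw [integral_const_mul, h1, h.mass, smul_eq_mul, mul_one, abs_of_pos (by positivity),
      mul_inv_cancel₀ hT.ne']
  · have h1 := h.mom.comp_mul_left' hT.ne'
    have h2 : (fun v : ℝ => |v| * (T * K (T * v))) = fun v => |T * v| * K (T * v) := by
      funext v
      rw [abs_mul, abs_of_pos hT]
      ring
    rw [h2]
    exact h1
  · exact h.conth.comp (continuous_id.div_const T)
  · intro t ht
    refine h.supp _ ?_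
    rw [abs_div, abs_of_pos hT, le_div_iff₀ hT]
    linarith
  · intro t
    have h1 := h.ft (t / T)
    have h2 := Measure.integral_comp_mul_left
      (fun v : ℝ => (K v : ℂ) * cexp (-(((t / T : ℝ) : ℂ) * v * I))) T
    rw [h1, abs_of_pos (by positivity)] at h2
    have h3 : ∀ v : ℝ, ((T * K (T * v) : ℝ) : ℂ) * cexp (-((t : ℂ) * v * I)) =
        (T : ℂ) * ((K (T * v) : ℂ) * cexp (-(((t / T : ℝ) : ℂ) * ((T * v : ℝ) : ℂ) * I))) := by
      intro v
      have h4 : ((t / T : ℝ) : ℂ) * ((T * v : ℝ) : ℂ) = (t : ℂ) * v := by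
        rw [← Complex.ofReal_mul, ← Complex.ofReal_mul]
        congr 1
        field_simp
      rw [h4]
      push_cast
      ring
    simp_rw [h3]
    rw [integral_const_mul, h2, Complex.real_smul, ← mul_assoc, ← Complex.ofReal_mul,
      mul_inv_cancel₀ hT.ne', Complex.ofReal_one, one_mul]

theorem pf_SY : T_SY := ⟨sy_a, sy_b, sy_c⟩

end Pool.Agent.H23.MF
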